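import Pool.Agent.Helper21.W4.St2

/-!
# Wilf in embedding dimension four, module Fc: consequence of (S2) for a face of type 3
-/

set_option autoImplicit false

namespace Pool.Agent.Helper39.W4

open Pool.Agent.Helper21.W4 Finset

theorem hFc : StFc := by
  intro B s t h hs ht hc h2 hsh hoc
  have cj : ∀ p q, q < s p ↔ p < t q := hc
  have t10 : t 1 ≤ t 0 := ht.anti 0
  -- the corners counted
  set C' : Finset ℕ := (cor B s).filter (fun l => h ≤ l + 1 ∧ l + 1 < t 0) with hC'
  have hmem : ∀ l, l ∈ cor B s ↔ l < B ∧ 1 ≤ l ∧ 2 ≤ s l ∧ s (l + 1) < s l := by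
    intro l
    simp [cor]
  have hlt1 : ∀ l, l ∈ cor B s → l < t 1 := by
    intro l hl
    have := ((hmem l).1 hl).2.2.1
    exact (cj l 1).1 (by omega)
  have hC'card : C'.card ≤ 1 := by
    refine le_trans ?_ hoc
    unfold oc
    refine Finset.card_le_card_of_injOn (fun l => l + 1) ?_ ?_
    · intro l hl
      have hl' : l ∈ C' := hl
      rw [hC', mem_filter] at hl'
      obtain ⟨hl1, hl2, hl3⟩ := hl'
      obtain ⟨hb, h1, h2', h3⟩ := (hmem l).1 hl1
      have hB : l + 1 < B := by
        by_contra hcon
        have := hs.fin l (by omega)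
        omega
      have hpos : 0 < s (l + 1) := (cj (l + 1) 0).2 hl3
      simp only [Finset.coe_filter, Set.mem_ofPred_eq, mem_range]
      refine ⟨hB, hl2, ?_, hpos⟩
      simpa using h3
    · intro a _ b _ hab
      simpa using hab
  have hht : h < t 1 := (cj h 1).1 (by omega)
  set l0 : ℕ := t 1 - 1 with hl0
  have hl0c : l0 ∈ cor B s := by
    rw [hmem]
    have e1 : 1 < s l0 := (cj l0 1).2 (by omega)
    have e2 : ¬ (1 < s (l0 + 1)) := by
      rw [cj (l0 + 1) 1]
      omega
    refine ⟨?_, by omega, by omega, by omega⟩
    by_contra hcon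
    have := hs.fin l0 (by omega)
    omega
  refine ⟨?_, ?_⟩
  · have hsub : (cor B s).filter (fun l => h ≤ l) ⊆ insert (t 0 - 1) C' := by
      intro l hl
      rw [mem_filter] at hl
      have hl1 := hlt1 l hl.1
      rw [mem_insert, hC', mem_filter]
      by_cases hlt : l + 1 < t 0
      · exact Or.inr ⟨hl.1, by omega, hlt⟩
      · left
        omega
    calc ((cor B s).filter (fun l => h ≤ l)).card ≤ (insert (t 0 - 1) C').card := card_le_card hsub
      _ ≤ C'.card + 1 := card_insert_le _ _
      _ ≤ 2 := by omega
  · intro h10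
    have hall : ∀ l, l ∈ cor B s → h ≤ l + 1 → l = l0 := by
      intro l hl hhl
      have m1 : l ∈ C' := by
        rw [hC', mem_filter]
        have := hlt1 l hl
        exact ⟨hl, hhl, by omega⟩
      have m2 : l0 ∈ C' := by
        rw [hC', mem_filter]
        exact ⟨hl0c, by omega, by omega⟩
      exact (Finset.card_le_one.1 hC'card) l m1 l0 m2
    constructor
    · have : (cor B s).filter (fun l => h ≤ l) = {l0} := by
        ext l
        rw [mem_filter, mem_singleton]
        constructor
        · rintro ⟨hl, hh⟩
          exact hall l hl (by omega)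
        · rintro rfl
          exact ⟨hl0c, by omega⟩
      rw [this, card_singleton]
    · have hsub : (cor B s).filter (fun l => l < h) ⊆ Ico 1 (h - 1) := by
        intro l hl
        rw [mem_filter] at hl
        rw [mem_Ico]
        have h1 := ((hmem l).1 hl.1).2.1
        refine ⟨h1, ?_⟩
        by_contra hcon
        have := hall l hl.1 (by omega)
        omega
      have := card_le_card hsub
      rw [Nat.card_Ico] at this
      omega

end Pool.Agent.Helper39.W4
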